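import Mathlib

open Finset

namespace Q287.DL

/-! ## A Markov chain driven by i.i.d. uniform noise on a finite set -/

section chain
variable {Ω S : Type*} [Fintype Ω] [Nonempty Ω]

/-- average over the noise -/
noncomputable def avg (f : Ω → ℝ) : ℝ := (∑ w, f w) / Fintype.card Ω

lemma card_pos' : (0 : ℝ) < Fintype.card Ω := by exact_mod_cast Fintype.card_pos

lemma avg_mono {f g : Ω → ℝ} (h : ∀ w, f w ≤ g w) : avg f ≤ avg g := by
  unfold avg
  apply div_le_div_of_nonneg_right (sum_le_sum (fun w _ => h w)) card_pos'.le

lemma avg_const (c : ℝ) : avg (fun _ : Ω => c) = c := by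
  unfold avg
  rw [sum_const, nsmul_eq_mul, card_univ]
  have := card_pos' (Ω := Ω)
  field_simp

lemma avg_add (f g : Ω → ℝ) : avg (fun w => f w + g w) = avg f + avg g := by
  unfold avg; rw [sum_add_distrib]; ring

lemma avg_sub (f g : Ω → ℝ) : avg (fun w => f w - g w) = avg f - avg g := by
  unfold avg; rw [sum_sub_distrib]; ring

lemma avg_mul (c : ℝ) (f : Ω → ℝ) : avg (fun w => c * f w) = c * avg f := by
  unfold avg; rw [← mul_sum]; ring

open Classical in
/-- probability that after `T` steps the chain started at `C` is outside `D` -/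
noncomputable def Q (step : Ω → S → S) (D : S → Prop) : ℕ → S → ℝ
  | 0, C => if D C then 0 else 1
  | (T + 1), C => avg (fun w => Q step D T (step w C))

variable (step : Ω → S → S)

lemma Q_nonneg (D : S → Prop) : ∀ T C, 0 ≤ Q step D T C := by
  intro T
  induction T with
  | zero => intro C; rw [Q]; split_ifs <;> norm_num
  | succ T ih =>
    intro C
    rw [Q]
    have := avg_mono (f := fun _ : Ω => (0 : ℝ)) (fun w => ih (step w C))
    rwa [avg_const] at this

lemma Q_le_one (D : S → Prop) : ∀ T C, Q step D T C ≤ 1 := by
  intro T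
  induction T with
  | zero => intro C; rw [Q]; split_ifs <;> norm_num
  | succ T ih =>
    intro C
    rw [Q]
    have := avg_mono (g := fun _ : Ω => (1 : ℝ)) (fun w => ih (step w C))
    rwa [avg_const] at this

lemma Q_zero_of_mem (I D : S → Prop) (hI : ∀ C w, I C → I (step w C))
    (hD : ∀ C w, I C → D C → D (step w C)) : ∀ T C, I C → D C → Q step D T C = 0 := by
  intro T
  induction T with
  | zero => intro C _ h; rw [Q, if_pos h]
  | succ T ih =>
    intro C hC h
    rw [Q]
    have : (fun w => Q step D T (step w C)) = fun _ => 0 := by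
      funext w; exact ih _ (hI C w hC) (hD C w hC h)
    rw [this, avg_const]

/-- drift lemma -/
lemma drift (I D : S → Prop) (V : S → ℝ) (hI : ∀ C w, I C → I (step w C))
    (hD : ∀ C w, I C → D C → D (step w C)) (hV0 : ∀ C, I C → 0 ≤ V C)
    (hV : ∀ C, I C → ¬ D C → avg (fun w => V (step w C)) ≤ V C - 1) :
    ∀ (T : ℕ) (C : S), I C → (T : ℝ) * Q step D T C ≤ V C := by
  intro T
  induction T with
  | zero => intro C hC; simpa using hV0 C hC
  | succ T ih =>
    intro C hC
    by_cases h : D C
    · rw [Q_zero_of_mem step I D hI hD (T + 1) C hC h, mul_zero]; exact hV0 C hC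
    · have h1 : (T : ℝ) * Q step D (T + 1) C ≤ avg (fun w => V (step w C)) := by
        rw [Q, ← avg_mul]
        exact avg_mono (fun w => ih _ (hI C w hC))
      have h2 := Q_le_one step D (T + 1) C
      have h3 := hV C hC h
      push_cast
      linarith

/-- composition of two phases -/
lemma Q_comp (I D1 D2 : S → Prop) (hI : ∀ C w, I C → I (step w C)) (T2 : ℕ) (q : ℝ) (hq : 0 ≤ q)
    (h : ∀ C, I C → D1 C → Q step D2 T2 C ≤ q) :
    ∀ T1 C, I C → Q step D2 (T1 + T2) C ≤ Q step D1 T1 C + q := by
  intro T1
  induction T1 with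
  | zero =>
    intro C hC
    rw [Nat.zero_add, Q]
    split_ifs with h1
    · rw [zero_add]; exact h C hC h1
    · have := Q_le_one step D2 T2 C
      linarith
  | succ T1 ih =>
    intro C hC
    rw [show T1 + 1 + T2 = (T1 + T2) + 1 by ring, Q, Q]
    have := avg_mono (fun w => ih (step w C) (hI C w hC))
    rwa [avg_add, avg_const] at this

/-- more time only helps -/
lemma Q_anti (I D : S → Prop) (hI : ∀ C w, I C → I (step w C))
    (hD : ∀ C w, I C → D C → D (step w C)) (T s : ℕ) (C : S) (hC : I C) :
    Q step D (T + s) C ≤ Q step D T C := by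
  have := Q_comp step I D D hI s 0 le_rfl (fun C hC h => (Q_zero_of_mem step I D hI hD s C hC h).le) T C hC
  linarith

/-- counting interpretation -/
lemma card_Q (D : S → Prop) [DecidablePred D] : ∀ (T : ℕ) (C : S),
    ((univ.filter (fun r : Fin T → Ω => ¬ D ((List.ofFn r).foldl (fun C w => step w C) C))).card : ℝ) =
      (Fintype.card Ω : ℝ) ^ T * Q step D T C := by
  intro T
  induction T with
  | zero =>
    intro C
    rw [Q]
    simp only [List.ofFn_zero, List.foldl_nil, pow_zero, one_mul]
    split_ifs with h
    · simp [h]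
    · simp [h]
  | succ T ih =>
    intro C
    have h1 : ((univ.filter (fun r : Fin (T + 1) → Ω => ¬ D ((List.ofFn r).foldl (fun C w => step w C) C))).card : ℝ)
        = ∑ w : Ω, ((univ.filter (fun r : Fin T → Ω =>
            ¬ D ((List.ofFn r).foldl (fun C w => step w C) (step w C)))).card : ℝ) := by
      have e : (univ.filter (fun r : Fin (T + 1) → Ω => ¬ D ((List.ofFn r).foldl (fun C w => step w C) C))).card =
          (univ.filter (fun z : Ω × (Fin T → Ω) => ¬ D ((List.ofFn z.2).foldl (fun C w => step w C) (step z.1 C)))).card := by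
        refine Finset.card_bij' (fun r _ => (r 0, Fin.tail r)) (fun z _ => Fin.cons z.1 z.2) ?_ ?_ ?_ ?_
        · intro r hr
          rw [mem_filter] at hr ⊢
          refine ⟨mem_univ _, ?_⟩
          have := hr.2
          rw [List.ofFn_succ, List.foldl_cons] at this
          exact this
        · intro z hz
          rw [mem_filter] at hz ⊢
          refine ⟨mem_univ _, ?_⟩
          rw [List.ofFn_succ, List.foldl_cons]
          simp only [Fin.cons_zero, Fin.cons_succ]
          exact hz.2
        · intro r _; simp
        · intro z _; simp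
      rw [e, ← Nat.cast_sum]
      congr 1
      rw [Finset.card_filter, ← Finset.univ_product_univ, Finset.sum_product]
      apply sum_congr rfl
      intro w _
      rw [Finset.card_filter]
    rw [h1]
    simp_rw [ih]
    rw [← mul_sum, Q]
    unfold avg
    have := card_pos' (Ω := Ω)
    field_simp
    ring

end chain

end Q287.DL
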