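import Mathlib

open Finset

namespace Q287.DL

/-- A vertex of the hypercube is the finset of its coordinates equal to `1`. The decreasing walk from
`1 = univ` given by `σ` switches the coordinate `a` off at its step number `σ a + 1`, so that after `i`
steps the coordinates `a` with `i ≤ σ a` are still on. -/
def walk {n : ℕ} (σ : Equiv.Perm (Fin n)) (i : ℕ) : Finset (Fin n) := univ.filter (fun a => i ≤ (σ a : ℕ))

/-- the indices `i ≤ n` such that the initial segment `x_0,…,x_i` of the walk contains no vertex of `C` -/
def freeIdx {n : ℕ} (σ : Equiv.Perm (Fin n)) (C : Finset (Finset (Fin n))) : Finset ℕ :=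
  (range (n + 1)).filter (fun i => ∀ j, j ≤ i → walk σ j ∉ C)

/-- one step of the aggregation: the last vertex of the longest initial segment of the walk containing no
vertex of `C` is added to `C` (if there is such a segment, i.e. if `1 ∉ C`) -/
def step {n : ℕ} (σ : Equiv.Perm (Fin n)) (C : Finset (Finset (Fin n))) : Finset (Finset (Fin n)) :=
  if h : (freeIdx σ C).Nonempty then insert (walk σ ((freeIdx σ C).max' h)) C else C

/-- the clusters `C_0 = {0}`, `C_{t+1}` driven by the sequence of walks `ρ` -/
def cluster {n : ℕ} (ρ : ℕ → Equiv.Perm (Fin n)) : ℕ → Finset (Finset (Fin n))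
  | 0 => {∅}
  | (t + 1) => step (ρ t) (cluster ρ t)

/-- `t_end > x`, where `t_end = min {t : 1 ∈ C_t}` -/
def EndGt {n : ℕ} (ρ : ℕ → Equiv.Perm (Fin n)) (x : ℝ) : Prop :=
  ∀ t : ℕ, (t : ℝ) ≤ x → univ ∉ cluster ρ t

end Q287.DL
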