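import Pool.Agent.Q287.DL.DL1
import Pool.Agent.Q287.DL.Defs

open Finset

namespace Q287.DL

variable {n : ℕ}

lemma mem_walk (σ : Equiv.Perm (Fin n)) (i : ℕ) (a : Fin n) : a ∈ walk σ i ↔ i ≤ (σ a : ℕ) := by
  simp [walk]

lemma walk_zero (σ : Equiv.Perm (Fin n)) : walk σ 0 = univ := by
  ext a; simp [walk]

lemma walk_n (σ : Equiv.Perm (Fin n)) : walk σ n = ∅ := by
  ext a; simp [walk]

lemma walk_card (σ : Equiv.Perm (Fin n)) (i : ℕ) (hi : i ≤ n) : (walk σ i).card = n - i := by
  have h1 : (walk σ i).card = (univ.filter (fun b : Fin n => i ≤ (b : ℕ))).card := by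
    apply Finset.card_bij (fun a _ => σ a)
    · intro a ha; rw [mem_walk] at ha; simp [ha]
    · intro a _ b _ h; exact σ.injective h
    · intro b hb
      refine ⟨σ.symm b, ?_, by simp⟩
      rw [mem_walk]; simpa using hb
  rw [h1]
  have h2 : (univ.filter (fun b : Fin n => i ≤ (b : ℕ))).card + (univ.filter (fun b : Fin n => ¬ i ≤ (b : ℕ))).card
      = n := by
    rw [Finset.card_filter_add_card_filter_not]; simp
  have h3 : (univ.filter (fun b : Fin n => ¬ i ≤ (b : ℕ))).card = i := by
    simp only [not_le]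
    rw [← Finset.card_map Fin.valEmbedding]
    have : (univ.filter (fun b : Fin n => (b : ℕ) < i)).map Fin.valEmbedding = range i := by
      ext c
      simp only [mem_map, mem_filter, mem_univ, true_and, Fin.valEmbedding_apply, mem_range]
      constructor
      · rintro ⟨b, hb, rfl⟩; exact hb
      · intro hc; exact ⟨⟨c, by omega⟩, hc, rfl⟩
    rw [this, card_range]
  omega

lemma subset_step (σ : Equiv.Perm (Fin n)) (C : Finset (Finset (Fin n))) : C ⊆ step σ C := by
  unfold step
  split_ifs
  · exact subset_insert _ _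
  · exact Subset.refl _

lemma step_of_univ (σ : Equiv.Perm (Fin n)) {C : Finset (Finset (Fin n))} (h : univ ∈ C) : step σ C = C := by
  unfold step
  rw [dif_neg]
  rw [not_nonempty_iff_eq_empty]
  ext i
  simp only [freeIdx, mem_filter, notMem_empty, iff_false, not_and]
  intro _ h2
  exact h2 0 (Nat.zero_le _) (by rw [walk_zero]; exact h)

/-- the walk meets `C` at a level `≥ k` -/
def met (k : ℕ) (σ : Equiv.Perm (Fin n)) (C : Finset (Finset (Fin n))) : Prop :=
  ∃ i, i + k ≤ n ∧ walk σ i ∈ C

lemma step_spec (σ : Equiv.Perm (Fin n)) {C : Finset (Finset (Fin n))} (h0 : ∅ ∈ C) (h1 : univ ∉ C) :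
    ∃ v, v ∉ C ∧ step σ C = insert v C ∧ (∀ k, met k σ C → k + 1 ≤ v.card) ∧ (∀ k, ¬ met k σ C → v.card ≤ k) := by
  have hne : (freeIdx σ C).Nonempty := by
    refine ⟨0, ?_⟩
    simp only [freeIdx, mem_filter, mem_range]
    refine ⟨by omega, ?_⟩
    intro j hj
    obtain rfl : j = 0 := by omega
    rw [walk_zero]; exact h1
  set i := (freeIdx σ C).max' hne with hi
  have hmem : i ∈ freeIdx σ C := Finset.max'_mem _ _
  have hmem' := hmem
  simp only [freeIdx, mem_filter, mem_range] at hmem'
  have hin : i ≤ n := by omega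
  have hi_n : i < n := by
    rcases hin.lt_or_eq with h | h
    · exact h
    · exfalso
      have := hmem'.2 i le_rfl
      rw [h, walk_n] at this
      exact this h0
  have hnext : walk σ (i + 1) ∈ C := by
    by_contra hn
    have : i + 1 ∈ freeIdx σ C := by
      simp only [freeIdx, mem_filter, mem_range]
      refine ⟨by omega, ?_⟩
      intro j hj
      rcases Nat.lt_or_ge j (i + 1) with h | h
      · exact hmem'.2 j (by omega)
      · obtain rfl : j = i + 1 := by omega
        exact hn
    have := Finset.le_max' _ _ this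
    omega
  have hcard := walk_card σ i hin
  refine ⟨walk σ i, hmem'.2 i le_rfl, ?_, ?_, ?_⟩
  · unfold step; rw [dif_pos hne]
  · rintro k ⟨j, hj, hjC⟩
    rw [hcard]
    have : i < j := by
      by_contra h
      exact hmem'.2 j (by omega) hjC
    omega
  · intro k hk
    rw [hcard]
    by_contra h
    apply hk
    exact ⟨i + 1, by omega, hnext⟩

lemma exists_perm {x y : Finset (Fin n)} (h : x.card = y.card) :
    ∃ τ : Equiv.Perm (Fin n), ∀ a, a ∈ x ↔ τ a ∈ y := by
  have e : {a // a ∈ x} ≃ {a // a ∈ y} := Fintype.equivOfCardEq (by simpa using h)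
  refine ⟨e.extendSubtype, fun a => ⟨fun ha => ?_, fun ha => ?_⟩⟩
  · exact e.extendSubtype_mem a ha
  · by_contra hn
    exact e.extendSubtype_not_mem a hn ha

lemma card_eq_of_card {x y : Finset (Fin n)} (h : x.card = y.card) (i : ℕ) :
    (univ.filter (fun σ : Equiv.Perm (Fin n) => walk σ i = x)).card =
      (univ.filter (fun σ : Equiv.Perm (Fin n) => walk σ i = y)).card := by
  obtain ⟨τ, hτ⟩ := exists_perm h
  have hw : ∀ σ : Equiv.Perm (Fin n), ∀ a, a ∈ walk (σ * τ) i ↔ τ a ∈ walk σ i := by
    intro σ a; rw [mem_walk, mem_walk]; rfl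
  apply Finset.card_bij' (fun σ _ => σ * τ⁻¹) (fun σ _ => σ * τ)
  · intro σ hσ
    rw [mem_filter] at hσ ⊢
    refine ⟨mem_univ _, ?_⟩
    ext b
    have h1 := hw (σ * τ⁻¹) (τ⁻¹ b)
    have h2 : τ (τ⁻¹ b) = b := by simp
    rw [inv_mul_cancel_right, h2, hσ.2, hτ, h2] at h1
    exact h1.symm
  · intro σ hσ
    rw [mem_filter] at hσ ⊢
    refine ⟨mem_univ _, ?_⟩
    ext a
    rw [hw, hσ.2, hτ]
  · intro σ _; simp
  · intro σ _; simp

/-- each vertex of level `n-i` is visited by the same number of walks -/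
lemma card_walk (x : Finset (Fin n)) {j : ℕ} (hx : x.card = j) (hj : j ≤ n) :
    n.choose j * (univ.filter (fun σ : Equiv.Perm (Fin n) => walk σ (n - j) = x)).card = n.factorial := by
  have h1 : ∑ y ∈ powersetCard j (univ : Finset (Fin n)),
      (univ.filter (fun σ : Equiv.Perm (Fin n) => walk σ (n - j) = y)).card = n.factorial := by
    rw [← Finset.card_eq_sum_card_fiberwise]
    · simp [Fintype.card_perm]
    · intro σ _
      rw [mem_coe, mem_powersetCard]
      exact ⟨subset_univ _, by rw [walk_card σ (n - j) (by omega)]; omega⟩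
  have h2 : ∑ y ∈ powersetCard j (univ : Finset (Fin n)),
      (univ.filter (fun σ : Equiv.Perm (Fin n) => walk σ (n - j) = y)).card =
      ∑ y ∈ powersetCard j (univ : Finset (Fin n)),
      (univ.filter (fun σ : Equiv.Perm (Fin n) => walk σ (n - j) = x)).card := by
    apply sum_congr rfl
    intro y hy
    rw [mem_powersetCard] at hy
    exact card_eq_of_card (by rw [hy.2, hx]) _
  rw [h2, sum_const, card_powersetCard, card_univ, Fintype.card_fin, smul_eq_mul] at h1
  exact h1

open Classical in
/-- probability that a random walk meets `C` at a level `≥ k` -/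
noncomputable def G (k : ℕ) (C : Finset (Finset (Fin n))) : ℝ :=
  avg (fun σ : Equiv.Perm (Fin n) => if met k σ C then (1 : ℝ) else 0)

lemma met_mono {k : ℕ} {σ : Equiv.Perm (Fin n)} {C C' : Finset (Finset (Fin n))} (h : C ⊆ C')
    (hm : met k σ C) : met k σ C' := by
  obtain ⟨i, hi, hC⟩ := hm
  exact ⟨i, hi, h hC⟩

lemma G_mono {k : ℕ} {C C' : Finset (Finset (Fin n))} (h : C ⊆ C') : G k C ≤ G k C' := by
  unfold G
  apply avg_mono
  intro σ
  by_cases hm : met k σ C
  · rw [if_pos hm, if_pos (met_mono h hm)]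
  · rw [if_neg hm]; split_ifs <;> norm_num

/-- density bound: `#(C ∩ L_j) ≤ binom(n,j) G_k(C)` for `k ≤ j` -/
lemma level_le (k j : ℕ) (hkj : k ≤ j) (hj : j ≤ n) (C : Finset (Finset (Fin n))) :
    ((C.filter (fun x => x.card = j)).card : ℝ) ≤ n.choose j * G k C := by
  classical
  have hfac : (0 : ℝ) < n.factorial := by exact_mod_cast n.factorial_pos
  have hperm : (Fintype.card (Equiv.Perm (Fin n)) : ℝ) = n.factorial := by
    rw [Fintype.card_perm, Fintype.card_fin]
  -- count of permutations whose level-j vertex is in C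
  have h1 : ∑ x ∈ C.filter (fun x => x.card = j),
      (univ.filter (fun σ : Equiv.Perm (Fin n) => walk σ (n - j) = x)).card ≤
      (univ.filter (fun σ : Equiv.Perm (Fin n) => met k σ C)).card := by
    classical
    rw [← Finset.card_biUnion]
    · apply Finset.card_le_card
      intro σ hσ
      rw [mem_biUnion] at hσ
      obtain ⟨x, hx, hσx⟩ := hσ
      rw [mem_filter] at hx hσx ⊢
      refine ⟨mem_univ _, n - j, by omega, ?_⟩
      rw [hσx.2]; exact hx.1
    · intro x _ y _ hxy
      rw [Function.onFun, Finset.disjoint_left]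
      intro σ hσ1 hσ2
      rw [mem_filter] at hσ1 hσ2
      exact hxy (hσ1.2.symm.trans hσ2.2)
  have h2 : ∀ x ∈ C.filter (fun x => x.card = j),
      (n.choose j : ℝ) * ((univ.filter (fun σ : Equiv.Perm (Fin n) => walk σ (n - j) = x)).card : ℝ) = n.factorial := by
    intro x hx
    rw [mem_filter] at hx
    exact_mod_cast card_walk x hx.2 hj
  have h3 : G k C = ((univ.filter (fun σ : Equiv.Perm (Fin n) => met k σ C)).card : ℝ) / n.factorial := by
    unfold G avg
    rw [hperm, Finset.card_filter]
    push_cast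
    rfl
  have h4 : (∑ x ∈ C.filter (fun x => x.card = j),
      ((univ.filter (fun σ : Equiv.Perm (Fin n) => walk σ (n - j) = x)).card : ℝ)) ≤
      ((univ.filter (fun σ : Equiv.Perm (Fin n) => met k σ C)).card : ℝ) := by exact_mod_cast h1
  have hch : (0 : ℝ) ≤ n.choose j := Nat.cast_nonneg _
  have h5 : ((C.filter (fun x => x.card = j)).card : ℝ) * n.factorial = n.choose j * ∑ x ∈ C.filter (fun x => x.card = j),
      ((univ.filter (fun σ : Equiv.Perm (Fin n) => walk σ (n - j) = x)).card : ℝ) := by
    rw [mul_sum, sum_congr rfl h2, sum_const, nsmul_eq_mul]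
  rw [h3, ← mul_div_assoc, le_div_iff₀ hfac, h5]
  exact mul_le_mul_of_nonneg_left h4 hch

/-- number of vertices of `C` at levels `≥ k` -/
def Nge (k : ℕ) (C : Finset (Finset (Fin n))) : ℕ := (C.filter (fun x => k ≤ x.card)).card
/-- number of vertices of `C` at levels `≤ k` -/
def Nle (k : ℕ) (C : Finset (Finset (Fin n))) : ℕ := (C.filter (fun x => x.card ≤ k)).card

lemma card_le_n (x : Finset (Fin n)) : x.card ≤ n := by
  have := Finset.card_le_univ x
  simpa using this

lemma Nge_le (k : ℕ) (C : Finset (Finset (Fin n))) : (Nge k C : ℝ) ≤ 2 ^ n * G k C := by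
  have h1 : Nge k C = ∑ j ∈ Ico k (n + 1), (C.filter (fun x => x.card = j)).card := by
    unfold Nge
    rw [Finset.card_eq_sum_card_fiberwise (f := fun x : Finset (Fin n) => x.card) (t := Ico k (n + 1))]
    · apply sum_congr rfl
      intro j hj
      rw [mem_Ico] at hj
      congr 1
      ext x
      simp only [mem_filter]
      constructor
      · rintro ⟨⟨a, _⟩, c⟩; exact ⟨a, c⟩
      · rintro ⟨a, c⟩; exact ⟨⟨a, by omega⟩, c⟩
    · intro x hx
      rw [mem_coe, mem_filter] at hx
      rw [mem_coe, mem_Ico]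
      have := card_le_n x
      exact ⟨hx.2, Nat.lt_succ_of_le this⟩
  have hG : 0 ≤ G k C := by
    unfold G
    have := avg_mono (f := fun _ : Equiv.Perm (Fin n) => (0 : ℝ)) (g := fun σ => @ite _ (met k σ C) (Classical.propDecidable _) (1 : ℝ) 0)
      (fun σ => by split_ifs <;> norm_num)
    rwa [avg_const] at this
  calc (Nge k C : ℝ) = ∑ j ∈ Ico k (n + 1), ((C.filter (fun x => x.card = j)).card : ℝ) := by rw [h1]; push_cast; rfl
    _ ≤ ∑ j ∈ Ico k (n + 1), (n.choose j : ℝ) * G k C := by
        apply sum_le_sum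
        intro j hj
        rw [mem_Ico] at hj
        exact level_le k j hj.1 (by omega) C
    _ ≤ ∑ j ∈ range (n + 1), (n.choose j : ℝ) * G k C := by
        apply sum_le_sum_of_subset_of_nonneg
        · intro j hj; rw [mem_Ico] at hj; rw [mem_range]; omega
        · intro j _ _; positivity
    _ = 2 ^ n * G k C := by
        rw [← sum_mul]
        congr 1
        exact_mod_cast Nat.sum_range_choose n

end Q287.DL
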