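import Pool.Agent.Q287.DL.DL2

open Finset

namespace Q287.DL

variable {n : ℕ}

abbrev St (n : ℕ) := Finset (Finset (Fin n))

lemma Nge_insert {k : ℕ} {C : St n} {v : Finset (Fin n)} (hv : v ∉ C) :
    Nge k (insert v C) = Nge k C + if k ≤ v.card then 1 else 0 := by
  unfold Nge
  rw [filter_insert]
  split_ifs with h
  · rw [card_insert_of_notMem]
    intro h2; rw [mem_filter] at h2; exact hv h2.1
  · rfl

lemma Nle_insert {k : ℕ} {C : St n} {v : Finset (Fin n)} (hv : v ∉ C) :
    Nle k (insert v C) = Nle k C + if v.card ≤ k then 1 else 0 := by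
  unfold Nle
  rw [filter_insert]
  split_ifs with h
  · rw [card_insert_of_notMem]
    intro h2; rw [mem_filter] at h2; exact hv h2.1
  · rfl

lemma Nge_mono {k : ℕ} {C C' : St n} (h : C ⊆ C') : Nge k C ≤ Nge k C' :=
  card_le_card (filter_subset_filter _ h)

lemma Nle_bound (K : ℕ) (C : St n) : Nle K C ≤ ∑ j ∈ range (K + 1), n.choose j := by
  unfold Nle
  have h1 : (C.filter (fun x => x.card ≤ K)) ⊆ (range (K + 1)).biUnion (fun j => powersetCard j (univ : Finset (Fin n))) := by
    intro x hx
    rw [mem_filter] at hx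
    rw [mem_biUnion]
    exact ⟨x.card, by rw [mem_range]; omega, by rw [mem_powersetCard]; exact ⟨subset_univ _, rfl⟩⟩
  refine (card_le_card h1).trans (card_biUnion_le.trans ?_)
  apply sum_le_sum
  intro j _
  rw [card_powersetCard]; simp

lemma hI (C : St n) (σ : Equiv.Perm (Fin n)) (h : ∅ ∈ C) : ∅ ∈ step σ C := subset_step σ C h

lemma hU (C : St n) (σ : Equiv.Perm (Fin n)) (h : univ ∈ C) : univ ∈ step σ C := subset_step σ C h

/-- stage 0 -/
lemma stage0 (K T : ℕ) (C : St n) (hC : ∅ ∈ C) :
    (T : ℝ) * Q step (fun C : St n => univ ∈ C ∨ 1 / 2 ≤ G K C) T C ≤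
      2 * (∑ j ∈ range (K + 1), (n.choose j : ℝ)) := by
  classical
  set R : ℝ := ∑ j ∈ range (K + 1), (n.choose j : ℝ) with hR
  have hb : ∀ C : St n, (Nle K C : ℝ) ≤ R := by
    intro C
    have := Nle_bound K C
    rw [hR]; exact_mod_cast this
  have h := drift step (fun C : St n => ∅ ∈ C) (fun C : St n => univ ∈ C ∨ 1 / 2 ≤ G K C)
    (fun C => 2 * (R - Nle K C)) (fun C σ h => hI C σ h)
    (fun C σ _ h => h.elim (fun h => Or.inl (hU C σ h)) (fun h => Or.inr (h.trans (G_mono (subset_step σ C)))))
    (fun C _ => by have := hb C; linarith)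
    (fun C hC hD => by
      push Not at hD
      have e : (fun σ : Equiv.Perm (Fin n) => 2 * (R - (Nle K (step σ C) : ℝ))) =
          fun σ => (2 * (R - Nle K C) - 2) + 2 * (if met K σ C then (1 : ℝ) else 0) := by
        funext σ
        obtain ⟨v, hv, hs, h1, h2⟩ := step_spec σ hC hD.1
        rw [hs, Nle_insert hv]
        by_cases hm : met K σ C
        · have := h1 K hm
          rw [if_neg (by omega), if_pos hm]
          push_cast; ring
        · have := h2 K hm
          rw [if_pos this, if_neg hm]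
          push_cast; ring
      rw [e, avg_add, avg_const, avg_mul]
      have : avg (fun σ : Equiv.Perm (Fin n) => if met K σ C then (1 : ℝ) else 0) = G K C := by
        unfold G; congr
      rw [this]
      linarith [hD.2]) T C hC
  refine h.trans ?_
  have : (0 : ℝ) ≤ Nle K C := Nat.cast_nonneg _
  linarith

/-- stage `i` -/
lemma stage (k M T : ℕ) (η : ℝ) (hη : 0 < η) (C : St n) (hC : ∅ ∈ C) (hG : univ ∈ C ∨ η ≤ G k C) :
    (T : ℝ) * Q step (fun C : St n => univ ∈ C ∨ (M : ℝ) ≤ 2 ^ n * G (k + 1) C) T C ≤ M / η := by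
  classical
  have hIm : ∀ (C : St n) (σ : Equiv.Perm (Fin n)), (∅ ∈ C ∧ (univ ∈ C ∨ η ≤ G k C)) →
      (∅ ∈ step σ C ∧ (univ ∈ step σ C ∨ η ≤ G k (step σ C))) := by
    intro C σ h
    exact ⟨hI C σ h.1, h.2.elim (fun h => Or.inl (hU C σ h)) (fun h => Or.inr (h.trans (G_mono (subset_step σ C))))⟩
  have h := drift step (fun C : St n => ∅ ∈ C ∧ (univ ∈ C ∨ η ≤ G k C))
    (fun C : St n => univ ∈ C ∨ (M : ℝ) ≤ 2 ^ n * G (k + 1) C)
    (fun C => (((M - Nge (k + 1) C : ℕ) : ℝ)) / η) hIm
    (fun C σ _ h => h.elim (fun h => Or.inl (hU C σ h)) (fun h => Or.inr (h.trans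
      (mul_le_mul_of_nonneg_left (G_mono (subset_step σ C)) (by positivity)))))
    (fun C _ => by positivity)
    (fun C hC hD => by
      push Not at hD
      have hlt : Nge (k + 1) C < M := by
        have h1 := Nge_le (k + 1) C
        have h2 := hD.2
        exact_mod_cast h1.trans_lt h2
      have hGk : η ≤ G k C := hC.2.resolve_left hD.1
      have e : (fun σ : Equiv.Perm (Fin n) => (((M - Nge (k + 1) (step σ C) : ℕ) : ℝ)) / η) =
          fun σ => (((M - Nge (k + 1) C : ℕ) : ℝ)) / η - (1 / η) * (if met k σ C then (1 : ℝ) else 0) := by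
        funext σ
        obtain ⟨v, hv, hs, h1, h2⟩ := step_spec σ hC.1 hD.1
        rw [hs, Nge_insert hv]
        by_cases hm : met k σ C
        · have := h1 k hm
          rw [if_pos this, if_pos hm]
          rw [Nat.cast_sub (by omega), Nat.cast_sub (by omega)]
          push_cast; ring
        · have := h2 k hm
          rw [if_neg (by omega), if_neg hm]
          simp
      rw [e, avg_sub, avg_const, avg_mul]
      have : avg (fun σ : Equiv.Perm (Fin n) => if met k σ C then (1 : ℝ) else 0) = G k C := by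
        unfold G; congr
      rw [this]
      have : 1 ≤ 1 / η * G k C := by
        rw [one_div, ← div_eq_inv_mul, le_div_iff₀ hη]; linarith
      linarith) T C ⟨hC, hG⟩
  refine h.trans ?_
  apply div_le_div_of_nonneg_right _ hη.le
  exact_mod_cast Nat.sub_le _ _

lemma choose_pos' {k : ℕ} (hk : k ≤ n) : (0 : ℝ) < n.choose k := by
  exact_mod_cast Nat.choose_pos hk

/-- final stage -/
lemma stageF (K T : ℕ) (C : St n) (hC : ∅ ∈ C) (hN : univ ∈ C ∨ 0 < Nge K C) :
    (T : ℝ) * Q step (fun C : St n => univ ∈ C) T C ≤ ∑ k ∈ Ico K n, (n.choose k : ℝ) := by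
  classical
  have h := drift step (fun C : St n => ∅ ∈ C ∧ (univ ∈ C ∨ 0 < Nge K C))
    (fun C : St n => univ ∈ C)
    (fun C => ∑ k ∈ Ico K n, (n.choose k : ℝ) * (if Nge (k + 1) C = 0 then 1 else 0))
    (fun C σ h => ⟨hI C σ h.1, h.2.elim (fun h => Or.inl (hU C σ h))
      (fun h => Or.inr (h.trans_le (Nge_mono (subset_step σ C))))⟩)
    (fun C σ _ h => hU C σ h)
    (fun C _ => sum_nonneg (fun k _ => by split_ifs <;> simp))
    (fun C hC hD => by
      have hNK : 0 < Nge K C := hC.2.resolve_left hD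
      -- top level
      have hn0 : Nge n C = 0 := by
        unfold Nge
        rw [card_eq_zero, filter_eq_empty_iff]
        intro x hx hcard
        have h1 := card_le_n x
        have h2 : x = univ := by
          apply Finset.eq_univ_of_card
          rw [Fintype.card_fin]; omega
        rw [h2] at hx
        exact hD hx
      obtain ⟨k, hKk, hkn, hk1, hk2⟩ : ∃ k, K ≤ k ∧ k < n ∧ 0 < Nge k C ∧ Nge (k + 1) C = 0 := by
        have hex : ∃ j, Nge (K + j) C = 0 := by
          refine ⟨n - K, ?_⟩
          by_cases h : K ≤ n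
          · rw [show K + (n - K) = n by omega]; exact hn0
          · exfalso
            have h3 : Nge K C = 0 := by
              unfold Nge
              rw [card_eq_zero, filter_eq_empty_iff]
              intro x _ hc
              have := card_le_n x
              omega
            omega
        obtain ⟨t, hmin, hprev⟩ : ∃ t, Nge (K + t) C = 0 ∧ ∀ s, s < t → Nge (K + s) C ≠ 0 :=
          ⟨Nat.find hex, Nat.find_spec hex, fun s hs => Nat.find_min hex hs⟩
        have hpos : t ≠ 0 := by
          intro h0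
          rw [h0, add_zero] at hmin
          omega
        have hp := hprev (t - 1) (by omega)
        refine ⟨K + (t - 1), by omega, ?_, Nat.pos_of_ne_zero hp, ?_⟩
        · by_contra hge
          apply hp
          have : Nge (K + (t - 1)) C ≤ Nge n C := by
            unfold Nge
            apply card_le_card
            intro x hx
            rw [mem_filter] at hx ⊢
            exact ⟨hx.1, by omega⟩
          omega
        · rw [show K + (t - 1) + 1 = K + t by omega]; exact hmin
      have hGk : 1 ≤ (n.choose k : ℝ) * G k C := by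
        have h1 := level_le k k le_rfl hkn.le C
        have h2 : 1 ≤ (C.filter (fun x => x.card = k)).card := by
          unfold Nge at hk1 hk2
          rw [card_pos] at hk1
          obtain ⟨x, hx⟩ := hk1
          rw [mem_filter] at hx
          rw [card_eq_zero, filter_eq_empty_iff] at hk2
          have := hk2 hx.1
          exact card_pos.mpr ⟨x, by rw [mem_filter]; exact ⟨hx.1, by omega⟩⟩
        have h3 : (1 : ℝ) ≤ ((C.filter (fun x => x.card = k)).card : ℝ) := by exact_mod_cast h2
        linarith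
      have hpt : ∀ σ : Equiv.Perm (Fin n),
          (∑ k ∈ Ico K n, (n.choose k : ℝ) * (if Nge (k + 1) (step σ C) = 0 then 1 else 0)) ≤
          (∑ k ∈ Ico K n, (n.choose k : ℝ) * (if Nge (k + 1) C = 0 then 1 else 0)) -
            (n.choose k : ℝ) * (if met k σ C then 1 else 0) := by
        intro σ
        obtain ⟨v, hv, hs, h1, h2⟩ := step_spec σ hC.1 hD
        have hkm : k ∈ Ico K n := by rw [mem_Ico]; exact ⟨hKk, hkn⟩
        rw [← Finset.add_sum_erase _ _ hkm, ← Finset.add_sum_erase (Ico K n) (fun k => (n.choose k : ℝ) *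
          (if Nge (k + 1) C = 0 then (1 : ℝ) else 0)) hkm]
        have h3 : ∑ j ∈ (Ico K n).erase k, (n.choose j : ℝ) * (if Nge (j + 1) (step σ C) = 0 then (1 : ℝ) else 0) ≤
            ∑ j ∈ (Ico K n).erase k, (n.choose j : ℝ) * (if Nge (j + 1) C = 0 then (1 : ℝ) else 0) := by
          apply sum_le_sum
          intro j _
          apply mul_le_mul_of_nonneg_left _ (Nat.cast_nonneg _)
          have := Nge_mono (k := j + 1) (subset_step σ C)
          by_cases h : Nge (j + 1) (step σ C) = 0
          · rw [if_pos h, if_pos (by omega)]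
          · rw [if_neg h]; split_ifs <;> norm_num
        have h4 : (n.choose k : ℝ) * (if Nge (k + 1) (step σ C) = 0 then (1 : ℝ) else 0) ≤
            (n.choose k : ℝ) * (if Nge (k + 1) C = 0 then (1 : ℝ) else 0) - (n.choose k : ℝ) * (if met k σ C then 1 else 0) := by
          rw [← mul_sub]
          apply mul_le_mul_of_nonneg_left _ (Nat.cast_nonneg _)
          rw [if_pos hk2]
          by_cases hm : met k σ C
          · have := h1 k hm
            rw [if_pos hm, hs, Nge_insert hv, if_pos this, if_neg (by omega)]; norm_num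
          · rw [if_neg hm]; split_ifs <;> norm_num
        linarith
      have h5 := avg_mono hpt
      rw [avg_sub, avg_const, avg_mul] at h5
      have : avg (fun σ : Equiv.Perm (Fin n) => if met k σ C then (1 : ℝ) else 0) = G k C := by
        unfold G; congr
      rw [this] at h5
      linarith) T C ⟨hC, hN⟩
  refine h.trans ?_
  apply sum_le_sum
  intro k _
  have : (0 : ℝ) ≤ n.choose k := Nat.cast_nonneg _
  split_ifs <;> linarith

/-- iterate the stages: `m` levels in `m * Δ` steps -/
lemma stages (K Δ : ℕ) (hΔ : 0 < Δ) (r q : ℝ) (hr : 0 < r) (m : ℕ)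
    (hq : ∀ i < m, ((⌈(1 / 2 * r ^ (i + 1)) * 2 ^ n⌉₊ : ℕ) : ℝ) / (1 / 2 * r ^ i) / Δ ≤ q) :
    ∀ i ≤ m, ∀ C : St n, ∅ ∈ C → (univ ∈ C ∨ 1 / 2 ≤ G K C) →
      Q step (fun C : St n => univ ∈ C ∨ 1 / 2 * r ^ i ≤ G (K + i) C) (i * Δ) C ≤ i * q := by
  intro i
  induction i with
  | zero =>
    intro _ C _ h
    rw [Nat.zero_mul, Q, if_pos]
    · simp
    · simpa using h
  | succ i ih =>
    intro hi C hC h
    have hΔ' : (0 : ℝ) < Δ := by exact_mod_cast hΔ
    have h1 := ih (by omega) C hC h
    have hq0 := hq i (by omega)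
    have hqn : 0 ≤ q := le_trans (by positivity) hq0
    have h2 := Q_comp step (fun C : St n => ∅ ∈ C) (fun C : St n => univ ∈ C ∨ 1 / 2 * r ^ i ≤ G (K + i) C)
      (fun C : St n => univ ∈ C ∨ 1 / 2 * r ^ (i + 1) ≤ G (K + (i + 1)) C) (fun C σ h => hI C σ h) Δ q hqn
      (fun C' hC' hD' => by
        have h3 := stage (K + i) ⌈(1 / 2 * r ^ (i + 1)) * 2 ^ n⌉₊ Δ (1 / 2 * r ^ i) (by positivity) C' hC' hD'
        -- compare the targets
        have h4 : Q step (fun C : St n => univ ∈ C ∨ 1 / 2 * r ^ (i + 1) ≤ G (K + (i + 1)) C) Δ C' ≤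
            Q step (fun C : St n => univ ∈ C ∨ ((⌈(1 / 2 * r ^ (i + 1)) * 2 ^ n⌉₊ : ℕ) : ℝ) ≤ 2 ^ n * G (K + i + 1) C) Δ C' + 0 := by
          have := Q_comp step (fun C : St n => ∅ ∈ C)
            (fun C : St n => univ ∈ C ∨ ((⌈(1 / 2 * r ^ (i + 1)) * 2 ^ n⌉₊ : ℕ) : ℝ) ≤ 2 ^ n * G (K + i + 1) C)
            (fun C : St n => univ ∈ C ∨ 1 / 2 * r ^ (i + 1) ≤ G (K + (i + 1)) C) (fun C σ h => hI C σ h) 0 0 le_rfl
            (fun C'' _ hD'' => by
              rw [Q, if_pos]
              rcases hD'' with h | h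
              · exact Or.inl h
              · right
                have h5 := Nat.le_ceil ((1 / 2 * r ^ (i + 1)) * 2 ^ n)
                have h6 : (0 : ℝ) < 2 ^ n := by positivity
                have h7 : (1 / 2 * r ^ (i + 1)) * 2 ^ n ≤ 2 ^ n * G (K + i + 1) C'' := h5.trans h
                rw [mul_comm] at h7
                exact le_of_mul_le_mul_left h7 h6) Δ C' hC'
          exact this
        rw [add_zero] at h4
        refine h4.trans ?_
        refine le_trans ?_ hq0
        rw [le_div_iff₀ hΔ', mul_comm]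
        exact h3) (i * Δ) C hC
    rw [Nat.succ_mul]
    push_cast
    linarith

/-- total bound -/
theorem total (K T0 Δ m Tf : ℕ) (hT0 : 0 < T0) (hΔ : 0 < Δ) (hTf : 0 < Tf) (r q : ℝ) (hr : 0 < r)
    (hq : ∀ i < m, ((⌈(1 / 2 * r ^ (i + 1)) * 2 ^ n⌉₊ : ℕ) : ℝ) / (1 / 2 * r ^ i) / Δ ≤ q) (hq0 : 0 ≤ q)
    (T : ℕ) (hT : T0 + (m * Δ + Tf) ≤ T) :
    Q step (fun C : St n => univ ∈ C) T {∅} ≤
      2 * (∑ j ∈ range (K + 1), (n.choose j : ℝ)) / T0 + (m * q + (∑ k ∈ Ico (K + m) n, (n.choose k : ℝ)) / Tf) := by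
  have hmem : (∅ : Finset (Fin n)) ∈ ({∅} : St n) := mem_singleton_self _
  have hT0' : (0 : ℝ) < T0 := by exact_mod_cast hT0
  have hTf' : (0 : ℝ) < Tf := by exact_mod_cast hTf
  have h1 := stage0 K T0 ({∅} : St n) hmem
  have hanti := Q_anti step (fun C : St n => ∅ ∈ C) (fun C : St n => univ ∈ C) (fun C σ h => hI C σ h)
    (fun C σ _ h => hU C σ h) (T0 + (m * Δ + Tf)) (T - (T0 + (m * Δ + Tf))) {∅} hmem
  rw [show T0 + (m * Δ + Tf) + (T - (T0 + (m * Δ + Tf))) = T by omega] at hanti
  refine hanti.trans ?_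
  have hsum0 : 0 ≤ ∑ k ∈ Ico (K + m) n, (n.choose k : ℝ) := sum_nonneg (fun _ _ => Nat.cast_nonneg _)
  have h2 := Q_comp step (fun C : St n => ∅ ∈ C) (fun C : St n => univ ∈ C ∨ 1 / 2 ≤ G K C)
    (fun C : St n => univ ∈ C) (fun C σ h => hI C σ h) (m * Δ + Tf)
    (m * q + (∑ k ∈ Ico (K + m) n, (n.choose k : ℝ)) / Tf) (by positivity)
    (fun C hC hD => by
      have h3 := stages K Δ hΔ r q hr m hq m le_rfl C hC hD
      have h4 := Q_comp step (fun C : St n => ∅ ∈ C) (fun C : St n => univ ∈ C ∨ 1 / 2 * r ^ m ≤ G (K + m) C)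
        (fun C : St n => univ ∈ C) (fun C σ h => hI C σ h) Tf
        ((∑ k ∈ Ico (K + m) n, (n.choose k : ℝ)) / Tf) (by positivity)
        (fun C' hC' hD' => by
          rw [le_div_iff₀ hTf', mul_comm]
          apply stageF (K + m) Tf C' hC'
          rcases hD' with h | h
          · exact Or.inl h
          · right
            by_contra hz
            have hz' : Nge (K + m) C' = 0 := by omega
            have hGpos : 0 < G (K + m) C' := lt_of_lt_of_le (by positivity) h
            -- some walk meets C' at level ≥ K+m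
            classical
            have : G (K + m) C' = 0 := by
              unfold G
              have e : (fun σ : Equiv.Perm (Fin n) => if met (K + m) σ C' then (1 : ℝ) else 0) = fun _ => 0 := by
                funext σ
                rw [if_neg]
                rintro ⟨i, hi, hiC⟩
                have h5 := walk_card σ i (by omega)
                unfold Nge at hz'
                rw [card_eq_zero, filter_eq_empty_iff] at hz'
                exact hz' hiC (by omega)
              have e' : avg (fun σ : Equiv.Perm (Fin n) => if met (K + m) σ C' then (1 : ℝ) else 0) = 0 := by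
                rw [e, avg_const]
              convert e'
            linarith) (m * Δ) C hC
      linarith) T0 {∅} hmem
  refine h2.trans ?_
  have h5 : Q step (fun C : St n => univ ∈ C ∨ 1 / 2 ≤ G K C) T0 {∅} ≤
      2 * (∑ j ∈ range (K + 1), (n.choose j : ℝ)) / T0 := by
    rw [le_div_iff₀ hT0', mul_comm]; exact h1
  linarith

end Q287.DL
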