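import Pool.Agent.Q287.DL.DL3

open Finset Filter Topology

namespace Q287.DL

lemma variance_id (n : ℕ) : ∑ j ∈ range (n + 1), ((n : ℝ) / 2 - j) ^ 2 * (n.choose j : ℝ) = (n : ℝ) * 2 ^ n / 4 := by
  have h := bernsteinPolynomial.variance ℝ n
  have h2 := congrArg (Polynomial.eval (1 / 2 : ℝ)) h
  simp only [Polynomial.eval_finsetSum, Polynomial.eval_mul, Polynomial.eval_pow, Polynomial.eval_sub,
    Polynomial.eval_X, Polynomial.eval_natCast, Polynomial.eval_one, bernsteinPolynomial,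
    nsmul_eq_mul] at h2
  have e : ∀ j ∈ range (n + 1), ((n : ℝ) / 2 - j) ^ 2 * (n.choose j : ℝ) =
      2 ^ n * (((n : ℝ) * (1 / 2) - j) ^ 2 * ((n.choose j : ℝ) * (1 / 2) ^ j * (1 - 1 / 2) ^ (n - j))) := by
    intro j hj
    rw [mem_range] at hj
    have h1 : (1 / 2 : ℝ) ^ j * (1 - 1 / 2) ^ (n - j) = 1 / 2 ^ n := by
      rw [show (1 - 1 / 2 : ℝ) = 1 / 2 by norm_num, ← pow_add, show j + (n - j) = n by omega, one_div_pow]
    rw [mul_assoc (n.choose j : ℝ), h1]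
    field_simp
  rw [sum_congr rfl e, ← mul_sum, h2]
  ring

lemma tail_low (n K S : ℕ) (hS : 0 < S) (h : 2 * K + 2 * S ≤ n) :
    ∑ j ∈ range (K + 1), (n.choose j : ℝ) ≤ n * 2 ^ n / (4 * S ^ 2) := by
  have hS' : (0 : ℝ) < S := by exact_mod_cast hS
  have h1 : (S : ℝ) ^ 2 * ∑ j ∈ range (K + 1), (n.choose j : ℝ) ≤ n * 2 ^ n / 4 := by
    rw [← variance_id, mul_sum]
    have hsub : range (K + 1) ⊆ range (n + 1) := by
      intro j hj; rw [mem_range] at hj ⊢; omega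
    refine le_trans ?_ (sum_le_sum_of_subset_of_nonneg hsub (fun j _ _ => by positivity))
    apply sum_le_sum
    intro j hj
    rw [mem_range] at hj
    apply mul_le_mul_of_nonneg_right _ (Nat.cast_nonneg _)
    have h2 : (S : ℝ) ≤ n / 2 - j := by
      have : (2 * (j : ℝ) + 2 * S) ≤ n := by exact_mod_cast (by omega : 2 * j + 2 * S ≤ n)
      linarith
    exact pow_le_pow_left₀ hS'.le h2 2
  rw [le_div_iff₀ (by positivity)]
  linarith

lemma tail_high (n K S : ℕ) (hS : 0 < S) (h : n + 2 * S ≤ 2 * K) :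
    ∑ j ∈ Ico K n, (n.choose j : ℝ) ≤ n * 2 ^ n / (4 * S ^ 2) := by
  have hS' : (0 : ℝ) < S := by exact_mod_cast hS
  have h1 : (S : ℝ) ^ 2 * ∑ j ∈ Ico K n, (n.choose j : ℝ) ≤ n * 2 ^ n / 4 := by
    rw [← variance_id, mul_sum]
    have hsub : Ico K n ⊆ range (n + 1) := by
      intro j hj; rw [mem_Ico] at hj; rw [mem_range]; omega
    refine le_trans ?_ (sum_le_sum_of_subset_of_nonneg hsub (fun j _ _ => by positivity))
    apply sum_le_sum
    intro j hj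
    rw [mem_Ico] at hj
    apply mul_le_mul_of_nonneg_right _ (Nat.cast_nonneg _)
    have h2 : (S : ℝ) ≤ j - n / 2 := by
      have : ((n : ℝ) + 2 * S) ≤ 2 * j := by exact_mod_cast (by omega : n + 2 * S ≤ 2 * j)
      linarith
    calc (S : ℝ) ^ 2 ≤ (j - n / 2) ^ 2 := pow_le_pow_left₀ hS'.le h2 2
      _ = _ := by ring
  rw [le_div_iff₀ (by positivity)]
  linarith

/-- number of levels -/
def mm (b n : ℕ) : ℕ := 2 * (b * (Nat.sqrt n + 1)) + 1

lemma mm_tendsto (b : ℕ) (hb : 0 < b) : Tendsto (fun n => (mm b n : ℝ)) atTop atTop := by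
  have h1 : Tendsto Nat.sqrt atTop atTop := by
    apply tendsto_atTop_atTop.mpr
    intro c
    exact ⟨c * c, fun a ha => Nat.le_sqrt.mpr ha⟩
  have h2 : Tendsto (fun n => mm b n) atTop atTop := by
    apply tendsto_atTop_mono _ h1
    intro n
    unfold mm
    nlinarith [Nat.zero_le (Nat.sqrt n)]
  exact tendsto_natCast_atTop_atTop.comp h2

lemma mm_sq_le (b n : ℕ) (hn : 1 ≤ n) : ((mm b n : ℕ) : ℝ) ^ 2 ≤ 4 * (2 * b + 1) ^ 2 * n := by
  have h1 : Nat.sqrt n * Nat.sqrt n ≤ n := Nat.sqrt_le n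
  have h2 : 1 ≤ Nat.sqrt n := Nat.le_sqrt.mpr (by omega)
  have h3 : mm b n ≤ (2 * b + 1) * (2 * Nat.sqrt n) := by
    unfold mm; nlinarith
  have h4 : (mm b n) ^ 2 ≤ 4 * (2 * b + 1) ^ 2 * n := by
    calc (mm b n) ^ 2 ≤ ((2 * b + 1) * (2 * Nat.sqrt n)) ^ 2 := Nat.pow_le_pow_left h3 2
      _ = 4 * (2 * b + 1) ^ 2 * (Nat.sqrt n * Nat.sqrt n) := by ring
      _ ≤ _ := Nat.mul_le_mul_left _ h1
  exact_mod_cast h4

/-- `2 m^(3m) ≤ 2^n` eventually -/
lemma mm_pow (b : ℕ) (hb : 0 < b) : ∀ᶠ n in atTop, 2 * ((mm b n : ℕ) : ℝ) ^ (3 * mm b n) ≤ 2 ^ n := by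
  set c : ℝ := Real.log 2 / (24 * (2 * b + 1) ^ 2) with hc
  have hl2 : 0 < Real.log 2 := Real.log_pos (by norm_num)
  have hc0 : 0 < c := by positivity
  have h1 := (Real.isLittleO_log_id_atTop.def hc0)
  have h2 := (mm_tendsto b hb).eventually h1
  filter_upwards [h2, eventually_ge_atTop 2] with n hn hn2
  have hm0 : (0 : ℝ) < (mm b n : ℕ) := by
    have : 0 < mm b n := by unfold mm; omega
    exact_mod_cast this
  have hlog : Real.log (mm b n : ℕ) ≤ c * (mm b n : ℕ) := by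
    have := (le_abs_self _).trans hn
    simpa [abs_of_pos hm0] using this
  have hsq := mm_sq_le b n (by omega)
  rw [← Real.log_le_log_iff (by positivity) (by positivity), Real.log_mul (by norm_num) (by positivity),
    Real.log_pow, Real.log_pow]
  push_cast
  have h3 : 3 * (mm b n : ℝ) * Real.log (mm b n) ≤ 3 * (c * (mm b n : ℝ) ^ 2) := by
    have := mul_le_mul_of_nonneg_left hlog (show 0 ≤ 3 * (mm b n : ℝ) by positivity)
    nlinarith
  have h4 : 3 * (c * (mm b n : ℝ) ^ 2) ≤ Real.log 2 / 2 * n := by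
    have h5 : c * (mm b n : ℝ) ^ 2 ≤ c * (4 * (2 * b + 1) ^ 2 * n) := mul_le_mul_of_nonneg_left hsq hc0.le
    have h6 : c * (4 * (2 * b + 1) ^ 2 * n) = Real.log 2 / 6 * n := by
      rw [hc]; field_simp; ring
    linarith
  have hn2' : (2 : ℝ) ≤ n := by exact_mod_cast hn2
  nlinarith

lemma two_pow_tendsto : Tendsto (fun n : ℕ => (2 : ℝ) ^ n) atTop atTop :=
  tendsto_pow_atTop_atTop_of_one_lt (by norm_num)

theorem Q_tendsto (ε : ℝ) (hε : 0 < ε) :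
    Tendsto (fun n : ℕ => Q step (fun C : St n => univ ∈ C) ⌊ε * 2 ^ n⌋₊ {∅}) atTop (𝓝 0) := by
  rw [Metric.tendsto_atTop']
  intro γ hγ
  -- choose b
  obtain ⟨b, hb0, hb⟩ : ∃ b : ℕ, 0 < b ∧ 3 / ((b : ℝ) ^ 2 * ε) < γ / 2 := by
    obtain ⟨b, hb⟩ := exists_nat_gt (6 / (γ * ε))
    have hb0 : (0 : ℝ) < b := lt_of_le_of_lt (by positivity) hb
    refine ⟨b, by exact_mod_cast hb0, ?_⟩
    have hb1 : (1 : ℝ) ≤ b := by exact_mod_cast (by exact_mod_cast hb0 : 0 < b)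
    rw [div_lt_iff₀ (by positivity)] at hb ⊢
    have : (b : ℝ) ≤ b ^ 2 := by nlinarith
    have h3 : 0 < γ * ε := by positivity
    nlinarith
  have hev1 : ∀ᶠ n : ℕ in atTop, b * (Nat.sqrt n + 1) ≤ n / 2 := by
    filter_upwards [eventually_ge_atTop ((4 * b + 4) * (4 * b + 4))] with n hn
    have h1 : 4 * b + 4 ≤ Nat.sqrt n := Nat.le_sqrt.mpr hn
    have h2 : Nat.sqrt n * Nat.sqrt n ≤ n := Nat.sqrt_le n
    rw [Nat.le_div_iff_mul_le (by norm_num)]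
    nlinarith
  have hev2 : ∀ᶠ n : ℕ in atTop, 12 ≤ ε * 2 ^ n := by
    exact (two_pow_tendsto.const_mul_atTop hε).eventually_ge_atTop 12
  have hev3 := mm_pow b hb0
  have hev4 : ∀ᶠ n : ℕ in atTop, 4 / ε ≤ (mm b n : ℝ) := (mm_tendsto b hb0).eventually_ge_atTop _
  have hev5 : ∀ᶠ n : ℕ in atTop, 16 / (ε * (γ / 2)) < (mm b n : ℝ) := (mm_tendsto b hb0).eventually_gt_atTop _
  obtain ⟨N, hN⟩ := Filter.eventually_atTop.mp (hev1.and (hev2.and (hev3.and (hev4.and (hev5.and (eventually_ge_atTop 1))))))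
  refine ⟨N, fun n hn => ?_⟩
  obtain ⟨h1, h2, h3, h4, h5, h6⟩ := hN n hn.le
  set m : ℕ := mm b n with hm
  set T : ℕ := ⌊ε * 2 ^ n⌋₊ with hT
  set s : ℕ := b * (Nat.sqrt n + 1) with hs
  have hms : m = 2 * s + 1 := rfl
  have hm0 : (0 : ℝ) < m := by exact_mod_cast (by omega : 0 < m)
  have hm1 : (1 : ℝ) ≤ m := by exact_mod_cast (by omega : 1 ≤ m)
  have hs0 : 0 < s := Nat.mul_pos hb0 (Nat.succ_pos _)
  have h2n : (0 : ℝ) < 2 ^ n := by positivity
  -- T bounds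
  have hTlow : ε * 2 ^ n - 1 < T := Nat.sub_one_lt_floor _
  have hT3 : ε * 2 ^ n / 4 ≤ ((T / 3 : ℕ) : ℝ) := by
    have h7 : T < 3 * (T / 3) + 3 := by omega
    have h8 : (T : ℝ) < 3 * ((T / 3 : ℕ) : ℝ) + 3 := by exact_mod_cast h7
    have h9 : T ≤ 3 * (T / 3) + 2 := by omega
    have h10 : (T : ℝ) ≤ 3 * ((T / 3 : ℕ) : ℝ) + 2 := by exact_mod_cast h9
    linarith
  have hT3pos : 0 < T / 3 := by
    have : (0 : ℝ) < ((T / 3 : ℕ) : ℝ) := lt_of_lt_of_le (by positivity) hT3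
    exact_mod_cast this
  -- Δ
  have h2m : 8 * (m : ℝ) ≤ ε * 2 ^ n := by
    have h7 : (m : ℝ) ^ 3 ≤ (m : ℝ) ^ (3 * m) := pow_le_pow_right₀ hm1 (by omega)
    have h8 : 2 * (m : ℝ) ^ 3 ≤ 2 ^ n := by linarith
    have h9 : 4 ≤ ε * m := by rw [div_le_iff₀ hε] at h4; linarith
    have h10 : 4 * m ≤ ε * m ^ 3 := by
      have h11 : (1 : ℝ) ≤ m := hm1
      calc 4 * (m : ℝ) ≤ (ε * m) * m := by nlinarith
        _ ≤ (ε * m) * m ^ 2 := by
            apply mul_le_mul_of_nonneg_left _ (by positivity)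
            nlinarith
        _ = ε * m ^ 3 := by ring
    nlinarith
  have hΔlow : ε * 2 ^ n / (8 * m) ≤ (((T / 3) / m : ℕ) : ℝ) := by
    have h7 : T / 3 < m * ((T / 3) / m) + m := by
      have := Nat.lt_mul_div_succ (T / 3) (show 0 < m by omega)
      rw [Nat.mul_succ] at this
      exact this
    have h8 : ((T / 3 : ℕ) : ℝ) < m * (((T / 3) / m : ℕ) : ℝ) + m := by exact_mod_cast h7
    rw [div_le_iff₀ (by positivity)]
    nlinarith
  have hΔpos : 0 < (T / 3) / m := by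
    have : (0 : ℝ) < (((T / 3) / m : ℕ) : ℝ) := lt_of_lt_of_le (by positivity) hΔlow
    exact_mod_cast this
  have hΔ' : (0 : ℝ) < (((T / 3) / m : ℕ) : ℝ) := by exact_mod_cast hΔpos
  set r : ℝ := 1 / (m : ℝ) ^ 3 with hr
  have hr0 : 0 < r := by positivity
  have hr1 : r ≤ 1 := by
    rw [hr, div_le_one (by positivity)]
    exact one_le_pow₀ hm1
  have hrm : 1 ≤ 1 / 2 * r ^ m * 2 ^ n := by
    rw [hr, one_div_pow, ← pow_mul]
    have h7 : (0 : ℝ) < (m : ℝ) ^ (3 * m) := by positivity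
    have h8 : 1 / 2 * (1 / (m : ℝ) ^ (3 * m)) * 2 ^ n = 2 ^ n / (2 * (m : ℝ) ^ (3 * m)) := by field_simp
    rw [h8, le_div_iff₀ (by positivity)]
    linarith
  have key := total (n := n) (n / 2 - s) (T / 3) ((T / 3) / m) m (T / 3) hT3pos hΔpos hT3pos r
    (2 * r * 2 ^ n / (((T / 3) / m : ℕ) : ℝ)) hr0 (by
      intro i hi
      apply div_le_div_of_nonneg_right _ hΔ'.le
      have h7 : 1 ≤ 1 / 2 * r ^ (i + 1) * 2 ^ n := by
        refine hrm.trans ?_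
        apply mul_le_mul_of_nonneg_right _ h2n.le
        apply mul_le_mul_of_nonneg_left _ (by norm_num)
        exact pow_le_pow_of_le_one hr0.le hr1 (by omega)
      have h8 := Nat.ceil_lt_add_one (show 0 ≤ 1 / 2 * r ^ (i + 1) * 2 ^ n by positivity)
      rw [div_le_iff₀ (by positivity)]
      have h9 : 2 * r * 2 ^ n * (1 / 2 * r ^ i) = 2 * (1 / 2 * r ^ (i + 1) * 2 ^ n) := by ring
      rw [h9]
      linarith) (by positivity) T (by
      have h7 : m * ((T / 3) / m) ≤ T / 3 := Nat.mul_div_le _ _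
      omega)
  have hlow := tail_low n (n / 2 - s) s hs0 (by omega)
  have hhigh := tail_high n (n / 2 - s + m) s hs0 (by omega)
  have hs2 : (b : ℝ) ^ 2 * n ≤ (s : ℝ) ^ 2 := by
    have h7 : n < (Nat.sqrt n + 1) * (Nat.sqrt n + 1) := Nat.lt_succ_sqrt n
    have h8 : b ^ 2 * n ≤ s ^ 2 := by
      rw [hs, mul_pow]
      apply Nat.mul_le_mul_left
      rw [pow_two]; exact h7.le
    exact_mod_cast h8
  have hn0 : (0 : ℝ) < n := by exact_mod_cast h6
  have hb0' : (0 : ℝ) < b := by exact_mod_cast hb0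
  have htail : (n : ℝ) * 2 ^ n / (4 * (s : ℝ) ^ 2) ≤ 2 ^ n / (4 * b ^ 2) := by
    rw [div_le_div_iff₀ (by positivity) (by positivity)]
    nlinarith
  have hQ0 := Q_nonneg step (fun C : St n => univ ∈ C) T {∅}
  rw [Real.dist_eq, sub_zero, abs_of_nonneg hQ0]
  have hT3' : (0 : ℝ) < ((T / 3 : ℕ) : ℝ) := by exact_mod_cast hT3pos
  have b1 : 2 * (∑ j ∈ range (n / 2 - s + 1), (n.choose j : ℝ)) / ((T / 3 : ℕ) : ℝ) ≤ 2 / (b ^ 2 * ε) := by
    rw [div_le_div_iff₀ hT3' (by positivity)]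
    have h7 := hlow.trans htail
    have h8 : 2 * (2 ^ n / (4 * (b : ℝ) ^ 2)) * (b ^ 2 * ε) = 2 * (ε * 2 ^ n / 4) := by field_simp
    have h9 := mul_le_mul_of_nonneg_right h7 (show 0 ≤ 2 * ((b : ℝ) ^ 2 * ε) by positivity)
    nlinarith
  have b2 : (∑ k ∈ Ico (n / 2 - s + m) n, (n.choose k : ℝ)) / ((T / 3 : ℕ) : ℝ) ≤ 1 / (b ^ 2 * ε) := by
    rw [div_le_div_iff₀ hT3' (by positivity)]
    have h7 := hhigh.trans htail
    have h8 : (2 ^ n / (4 * (b : ℝ) ^ 2)) * (b ^ 2 * ε) = (ε * 2 ^ n / 4) := by field_simp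
    have h9 := mul_le_mul_of_nonneg_right h7 (show 0 ≤ ((b : ℝ) ^ 2 * ε) by positivity)
    nlinarith
  have b3 : (m : ℝ) * (2 * r * 2 ^ n / (((T / 3) / m : ℕ) : ℝ)) ≤ 16 / (ε * m) := by
    rw [← mul_div_assoc, div_le_div_iff₀ hΔ' (by positivity)]
    have h7 : (m : ℝ) * (2 * r * 2 ^ n) * (ε * m) = 16 * (ε * 2 ^ n / (8 * m)) := by
      rw [hr]; field_simp; ring
    rw [h7]
    exact mul_le_mul_of_nonneg_left hΔlow (by norm_num)
  have b4 : 16 / (ε * m) < γ / 2 := by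
    rw [div_lt_iff₀ (by positivity)] at h5 ⊢
    linarith
  have b5 : 2 / ((b : ℝ) ^ 2 * ε) + 1 / (b ^ 2 * ε) = 3 / (b ^ 2 * ε) := by rw [← add_div]; norm_num
  linarith

end Q287.DL
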