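import Pool.Agent.Q287.DL.DL4

open Finset Filter Topology MeasureTheory ProbabilityTheory

namespace Q287.DL

lemma cluster_eq {n : ℕ} (ρ : ℕ → Equiv.Perm (Fin n)) (T : ℕ) :
    cluster ρ T = (List.ofFn (fun i : Fin T => ρ i)).foldl (fun C σ => step σ C) {∅} := by
  induction T with
  | zero => simp [cluster]
  | succ T ih =>
    rw [cluster, ih, List.ofFn_succ', List.concat_eq_append, List.foldl_append]
    simp

lemma prob_eq {n : ℕ} {Ω : Type*} [MeasurableSpace Ω] (P : Measure Ω) [IsProbabilityMeasure P]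
    (ρ : ℕ → Ω → Equiv.Perm (Fin n)) (hmeas : ∀ t, @Measurable _ _ _ ⊤ (ρ t))
    (hind : iIndepFun (m := fun _ => ⊤) ρ P)
    (hunif : ∀ t σ, P {ω | ρ t ω = σ} = 1 / (n.factorial : ENNReal)) (T : ℕ) :
    P {ω | univ ∉ cluster (fun t => ρ t ω) T} ≤ ENNReal.ofReal (Q step (fun C : St n => univ ∈ C) T {∅}) := by
  classical
  set F : Finset (Fin T → Equiv.Perm (Fin n)) :=
    univ.filter (fun r : Fin T → Equiv.Perm (Fin n) => ¬ (univ ∈ (List.ofFn r).foldl (fun C w => step w C) ({∅} : St n)))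
    with hF
  have hsub : {ω | univ ∉ cluster (fun t => ρ t ω) T} ⊆ ⋃ r ∈ F, {ω | ∀ i : Fin T, ρ i ω = r i} := by
    intro ω hω
    rw [Set.mem_iUnion₂]
    refine ⟨fun i => ρ i ω, ?_, fun i => rfl⟩
    rw [hF, mem_filter]
    refine ⟨mem_univ _, ?_⟩
    rw [Set.mem_ofPred_eq, cluster_eq] at hω
    exact hω
  have hone : ∀ r : Fin T → Equiv.Perm (Fin n), P {ω | ∀ i : Fin T, ρ i ω = r i} = (1 / (n.factorial : ENNReal)) ^ T := by
    intro r
    set r' : ℕ → Equiv.Perm (Fin n) := fun t => if h : t < T then r ⟨t, h⟩ else 1 with hr'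
    have h1 := hind.measure_inter_preimage_eq_mul (range T) (sets := fun t => {r' t}) (fun i _ => trivial)
    have h2 : (⋂ i ∈ range T, ρ i ⁻¹' {r' i}) = {ω | ∀ i : Fin T, ρ i ω = r i} := by
      ext ω
      simp only [Set.mem_iInter, mem_range, Set.mem_preimage, Set.mem_singleton_iff, Set.mem_ofPred_eq]
      constructor
      · intro h i
        have := h i i.2
        rw [hr'] at this
        simpa using this
      · intro h i hi
        have := h ⟨i, hi⟩
        rw [hr']
        simp only [hi, dif_pos]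
        exact this
    rw [h2] at h1
    rw [h1]
    have h3 : ∀ i ∈ range T, P (ρ i ⁻¹' {r' i}) = 1 / (n.factorial : ENNReal) := by
      intro i _
      exact hunif i (r' i)
    rw [prod_congr rfl h3, prod_const, card_range]
  have hcard := card_Q (Ω := Equiv.Perm (Fin n)) (S := St n) step (fun C : St n => univ ∈ C) T {∅}
  have hperm : (Fintype.card (Equiv.Perm (Fin n)) : ℝ) = n.factorial := by
    rw [Fintype.card_perm, Fintype.card_fin]
  rw [hperm] at hcard
  calc P {ω | univ ∉ cluster (fun t => ρ t ω) T} ≤ P (⋃ r ∈ F, {ω | ∀ i : Fin T, ρ i ω = r i}) := measure_mono hsub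
    _ ≤ ∑ r ∈ F, P {ω | ∀ i : Fin T, ρ i ω = r i} := measure_biUnion_finset_le _ _
    _ = F.card * (1 / (n.factorial : ENNReal)) ^ T := by
        rw [sum_congr rfl (fun r _ => hone r), sum_const, nsmul_eq_mul]
    _ = ENNReal.ofReal (Q step (fun C : St n => univ ∈ C) T {∅}) := by
        have hfac : (0 : ℝ) < n.factorial := by exact_mod_cast n.factorial_pos
        have e1 : Q step (fun C : St n => univ ∈ C) T {∅} = (F.card : ℝ) * (1 / (n.factorial : ℝ)) ^ T := by
          rw [hF, hcard, one_div_pow]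
          field_simp
        rw [e1, ENNReal.ofReal_mul (Nat.cast_nonneg _), ENNReal.ofReal_natCast,
          ENNReal.ofReal_pow (by positivity), ENNReal.ofReal_div_of_pos hfac, ENNReal.ofReal_one,
          ENNReal.ofReal_natCast]

theorem main (Ω : ℕ → Type) [∀ n, MeasurableSpace (Ω n)] (P : ∀ n, Measure (Ω n))
    [∀ n, IsProbabilityMeasure (P n)] (ρ : ∀ n, ℕ → Ω n → Equiv.Perm (Fin n))
    (hmeas : ∀ n t, @Measurable _ _ _ ⊤ (ρ n t)) (hind : ∀ n, iIndepFun (m := fun _ => ⊤) (ρ n) (P n))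
    (hunif : ∀ n t σ, P n {ω | ρ n t ω = σ} = 1 / (n.factorial : ENNReal)) (ε : ℝ) (hε : 0 < ε) :
    Tendsto (fun n => P n {ω | EndGt (fun t => ρ n t ω) (ε * 2 ^ n)}) atTop (𝓝 0) := by
  have h1 := (ENNReal.continuous_ofReal.tendsto 0).comp (Q_tendsto ε hε)
  rw [ENNReal.ofReal_zero] at h1
  refine tendsto_of_tendsto_of_tendsto_of_le_of_le tendsto_const_nhds h1 (fun n => bot_le) (fun n => ?_)
  refine (measure_mono ?_).trans (prob_eq (P n) (ρ n) (hmeas n) (hind n) (hunif n) ⌊ε * 2 ^ n⌋₊)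
  intro ω hω
  exact hω _ (Nat.floor_le (by positivity))

end Q287.DL
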